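import Pool.Agent.UL3.Stmts

/-!
# Squad UL3, row ADJ (helper90): admissible lattices give packings
-/

set_option autoImplicit false

namespace Pool.Agent.UL3.H90

open MeasureTheory Set

/-- the interior of a symmetric body is symmetric -/
theorem neg_mem_interior {K : Set E3} (h : SB K) {x : E3} (hx : x ∈ interior K) :
    -x ∈ interior K := by
  have hopen : IsOpen (Neg.neg ⁻¹' interior K : Set E3) := isOpen_interior.preimage continuous_neg
  have hsub : (Neg.neg ⁻¹' interior K : Set E3) ⊆ K := by
    intro y hy
    have h1 : -y ∈ K := interior_subset hy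
    have h2 := h.sym (-y) h1
    rwa [neg_neg] at h2
  have h3 : (Neg.neg ⁻¹' interior K : Set E3) ⊆ interior K := interior_maximal hsub hopen
  apply h3
  change -(-x) ∈ interior K
  rwa [neg_neg]

theorem adj : AdjStmt := by
  intro K v hK hv n hn
  rw [Set.disjoint_left]
  rintro x hx ⟨y, hy, hyx⟩
  apply hv n hn
  have hy' : -y ∈ interior K := neg_mem_interior hK hy
  have hc := hK.cvx.interior hx hy' (a := 1 / 2) (b := 1 / 2)
    (by norm_num) (by norm_num) (by norm_num)
  have he : (1 / 2 : ℝ) • x + (1 / 2 : ℝ) • -y = ∑ i, (n i : ℝ) • v i := by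
    rw [← hyx]
    module
  rwa [he] at hc

end Pool.Agent.UL3.H90
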